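import Pool.Agent.Helper51.CX.St

set_option autoImplicit false

/-!
Module BDP of project CX (MP_a41ee4_co): position bounds.
-/

namespace Pool.Agent.Helper36.CX

open Pool.Agent.Helper51.CX

section

variable {K : Type} [Field K] [LinearOrder K] [IsStrictOrderedRing K]

theorem ff_bds (j : ℕ) (h1 : 32 ≤ j) (h2 : j < 64) : 3869 ≤ FF K j ∧ FF K j ≤ 6469 := by
  obtain ⟨a, b, c, d, e⟩ := sgn (K := K) j h1 h2
  unfold FF
  rcases a with a | a <;> rcases b with b | b <;> rcases c with c | c <;> rcases d with d | d <;>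
    rcases e with e | e <;> rw [a, e, b, c, d] <;> norm_num

theorem far_bds (z : Fin 6 → K) (h : Feas z) : nn z ≤ 113 * z 5 ∧ mm z ≤ 3 * z 5 := by
  have hx := h.x
  have hy := h.y
  have h2 := h.z2
  have h3 := h.z3
  have h4 := h.z4
  have e1 : |z 1| ≤ |z 1 - (z 2 + 3 * z 3 + 9 * z 4)| + |z 2 + 3 * z 3 + 9 * z 4| := by
    calc |z 1| = |(z 1 - (z 2 + 3 * z 3 + 9 * z 4)) + (z 2 + 3 * z 3 + 9 * z 4)| := by
          congr 1; ring
      _ ≤ _ := abs_add_le _ _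
  have e2 : |z 2 + 3 * z 3 + 9 * z 4| ≤ |z 2| + 3 * |z 3| + 9 * |z 4| := by
    have a1 := abs_add_le (z 2 + 3 * z 3) (9 * z 4)
    have a2 := abs_add_le (z 2) (3 * z 3)
    have a3 : |3 * z 3| = 3 * |z 3| := by rw [abs_mul, abs_of_pos (by norm_num : (0 : K) < 3)]
    have a4 : |9 * z 4| = 9 * |z 4| := by rw [abs_mul, abs_of_pos (by norm_num : (0 : K) < 9)]
    linarith
  constructor
  · unfold nn
    linarith
  · unfold mm
    linarith

theorem pos_bd (j : ℕ) (h2 : j < 64) (z : Fin 6 → K) (hf : Feas z) (hz : L j z = 10 ^ 60) :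
    10 ^ 14 * |z 5 - 1| ≤ 1 := by
  obtain ⟨n1, m1⟩ := far_bds z hf
  obtain ⟨p1, -, p3⟩ := pwe_le j h2 z
  obtain ⟨q1, q2, -, -, -, -, -, q8, q9⟩ := bds (K := K) j h2
  have hL : L j z = 10 ^ 60 * z 5 + 10 ^ 40 * ((qx j : K) * z 0 + (qy j : K) * z 1) +
      (la j : K) * (10 ^ 20 * pp j z - el j z) := by
    simp only [L, pp, el]
  rw [hL] at hz
  have e1 : |(qx j : K) * z 0 + (qy j : K) * z 1| ≤ 1707 * nn z := by
    have a1 := abs_add_le ((qx j : K) * z 0) ((qy j : K) * z 1)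
    have a2 : |(qx j : K) * z 0| ≤ 1707 * |z 0| := by
      rw [abs_mul]; exact mul_le_mul_of_nonneg_right q1 (abs_nonneg _)
    have a3 : |(qy j : K) * z 1| ≤ 1707 * |z 1| := by
      rw [abs_mul]; exact mul_le_mul_of_nonneg_right q2 (abs_nonneg _)
    unfold nn
    linarith
  have e2 : |10 ^ 20 * pp j z - el j z| ≤ 10 ^ 20 * (63 * nn z) + mm z := by
    have a1 := abs_sub (10 ^ 20 * pp j z) (el j z)
    have a2 : |10 ^ 20 * pp j z| = 10 ^ 20 * |pp j z| := by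
      rw [abs_mul, abs_of_pos (by norm_num : (0 : K) < 10 ^ 20)]
    rw [a2] at a1
    linarith
  have e3 : |(la j : K) * (10 ^ 20 * pp j z - el j z)| ≤ 3 * (10 ^ 20 * (63 * nn z) + mm z) := by
    rw [abs_mul]
    refine mul_le_mul ?_ e2 (abs_nonneg _) (by norm_num)
    rw [abs_of_nonneg q8]
    exact q9
  have e4 : 10 ^ 60 * |z 5 - 1| ≤ 10 ^ 40 * (1707 * nn z) + 3 * (10 ^ 20 * (63 * nn z) + mm z) := by
    have a1 : 10 ^ 60 * (z 5 - 1) = -(10 ^ 40 * ((qx j : K) * z 0 + (qy j : K) * z 1)) -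
        (la j : K) * (10 ^ 20 * pp j z - el j z) := by linarith
    have a2 : 10 ^ 60 * |z 5 - 1| = |10 ^ 60 * (z 5 - 1)| := by
      rw [abs_mul, abs_of_pos (by norm_num : (0 : K) < 10 ^ 60)]
    rw [a2, a1]
    have a3 := abs_sub (-(10 ^ 40 * ((qx j : K) * z 0 + (qy j : K) * z 1)))
      ((la j : K) * (10 ^ 20 * pp j z - el j z))
    rw [abs_neg, abs_mul (10 ^ 40), abs_of_pos (by norm_num : (0 : K) < 10 ^ 40)] at a3
    have a4 : 10 ^ 40 * |(qx j : K) * z 0 + (qy j : K) * z 1| ≤ 10 ^ 40 * (1707 * nn z) :=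
      mul_le_mul_of_nonneg_left e1 (by norm_num)
    linarith
  have e5 : z 5 ≤ 1 + |z 5 - 1| := by
    have := le_abs_self (z 5 - 1)
    linarith
  have n0 := abs_nonneg (z 5 - 1)
  have e6 : 10 ^ 60 * |z 5 - 1| ≤ 2 * 10 ^ 45 * z 5 := by
    have h5 : 0 ≤ z 5 := (abs_nonneg _).trans hf.z2
    norm_num at e4 ⊢
    linarith
  norm_num at e6 ⊢
  linarith

end

theorem hBDP (hGAP : StGAP) : StBDP := by
  intro K _ _ _ j h1 h2 z hf hz
  obtain ⟨n1, m1⟩ := far_bds z hf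
  obtain ⟨p1, p2, p3⟩ := pwe_le j h2 z
  obtain ⟨f1, f2⟩ := ff_bds (K := K) j h1 h2
  obtain ⟨g1, g2⟩ := hGAP K j h1 h2 z
  obtain ⟨l1, -⟩ := la_bds (K := K) j h1 h2
  obtain ⟨-, -, -, -, -, -, ga1, gb1, -⟩ := hT1 j h2 h1
  have hl : (0 : K) < la j := lt_of_lt_of_le one_pos l1
  have u1 : 0 ≤ 10 ^ 40 * ww j z + 10 ^ 20 * pp j z - el j z := by
    have a1 := hf.v (ga j) (by omega)
    have a2 : 0 ≤ (la j : K) * (10 ^ 40 * ww j z + 10 ^ 20 * pp j z - el j z) := by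
      rw [← g1, hz]
      linarith
    exact nonneg_of_mul_nonneg_right a2 hl
  have u2 : 0 ≤ -(10 ^ 40 * ww j z) + 10 ^ 20 * pp j z - el j z := by
    have a1 := hf.v (gb j) (by omega)
    have a2 : 0 ≤ (la j : K) * (-(10 ^ 40 * ww j z) + 10 ^ 20 * pp j z - el j z) := by
      rw [← g2, hz]
      linarith
    exact nonneg_of_mul_nonneg_right a2 hl
  have hab : 10 ^ 40 * |ww j z| = |10 ^ 40 * ww j z| := by
    rw [abs_mul, abs_of_pos (by norm_num : (0 : K) < 10 ^ 40)]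
  refine ⟨pos_bd j h2 z hf hz, n1, m1, p1, p2, p3, f1, f2, ?_, ?_, ?_⟩
  · rw [hab, abs_le]
    constructor <;> linarith
  · intro ht
    have a2 : (la j : K) * (10 ^ 40 * ww j z + 10 ^ 20 * pp j z - el j z) = 0 := by
      rw [← g1, hz, ht, sub_self]
    have a3 : 10 ^ 40 * ww j z + 10 ^ 20 * pp j z - el j z = 0 :=
      (mul_eq_zero.1 a2).resolve_left hl.ne'
    rw [hab, abs_of_nonpos (by linarith)]
    linarith
  · intro ht
    have a2 : (la j : K) * (-(10 ^ 40 * ww j z) + 10 ^ 20 * pp j z - el j z) = 0 := by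
      rw [← g2, hz, ht, sub_self]
    have a3 : -(10 ^ 40 * ww j z) + 10 ^ 20 * pp j z - el j z = 0 :=
      (mul_eq_zero.1 a2).resolve_left hl.ne'
    rw [hab, abs_of_nonneg (by linarith)]
    linarith

end Pool.Agent.Helper36.CX
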